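import Pool.Agent.helper80.SG.Spec2
import Pool.Agent.helper92.SV.HON

/-! # sq: HM2 -/

set_option autoImplicit false

namespace Pool.Agent.SG

open MvPolynomial Module Pool.Agent.SV

theorem HM2_pderiv {ι κ : Type} [Fintype ι] [DecidableEq ι] [Fintype κ] [DecidableEq κ]
    (c : ι → κ) (s : κ → ℂ) (i : ι) (p : MvPolynomial ι ℂ) :
    pderiv i (bind₁ (fun l => C (s (c l)) * X l) p) =
      C (s (c i)) * bind₁ (fun l => C (s (c l)) * X l) (pderiv i p) := by
  induction p using MvPolynomial.induction_on with
  | C a => simp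
  | add p q hp hq => rw [map_add, map_add, hp, hq, map_add, map_add, mul_add]
  | mul_X p j hp =>
    have h1 : pderiv i (bind₁ (fun l => C (s (c l)) * X l) (X j : MvPolynomial ι ℂ)) =
        C (s (c i)) * bind₁ (fun l => C (s (c l)) * X l) (pderiv i (X j)) := by
      rw [bind₁_X_right, pderiv_C_mul]
      by_cases hij : j = i
      · subst hij
        rw [pderiv_X_self, map_one]
      · rw [pderiv_X_of_ne hij, map_zero, mul_zero, mul_zero]
    rw [map_mul, Derivation.leibniz, Derivation.leibniz, hp, h1, map_add, smul_eq_mul,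
      smul_eq_mul, smul_eq_mul, smul_eq_mul, map_mul, map_mul]
    ring

theorem HM2_eval {ι κ : Type} [Fintype ι] [DecidableEq ι] [Fintype κ] [DecidableEq κ]
    (c : ι → κ) (s : κ → ℂ) (x : ι → ℂ) (p : MvPolynomial ι ℂ) :
    eval x (bind₁ (fun l => C (s (c l)) * X l) p) = eval (fun l => s (c l) * x l) p := by
  induction p using MvPolynomial.induction_on with
  | C a => simp
  | add p q hp hq => rw [map_add, map_add, hp, hq, map_add]
  | mul_X p j hp => rw [map_mul, map_mul, hp, bind₁_X_right, map_mul, eval_X, map_mul, eval_C,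
      eval_X]

theorem HM2_cut {ι : Type} [Fintype ι] [DecidableEq ι] (y : ι → ℂ) :
    cut (Finset.univ : Finset ι) y = y := by
  funext i
  unfold cut
  rw [if_pos (Finset.mem_univ i)]

theorem HM2 (hHOM : HOM_stmt) : HM2_stmt := by
  intro ι κ _ _ _ _ c d f hf
  refine ⟨?_, ?_⟩
  · intro s x i
    have key : bind₁ (fun l => C (s (c l)) * X l) f = C (∏ k, s k ^ d k) * f := by
      apply MvPolynomial.funext
      intro y
      rw [HM2_eval, map_mul, eval_C]
      exact (hHOM c Finset.univ d f hf).1 s y
    have h1 := congrArg (fun p => eval x (pderiv i p)) key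
    simp only [HM2_pderiv, pderiv_C_mul, map_mul, eval_C, HM2_eval] at h1
    exact h1
  · intro L w
    apply MvPolynomial.funext
    intro y
    have h1 := HON_sub c Finset.univ L w y f
    rw [HM2_cut] at h1
    rw [h1, (hHOM c Finset.univ d f hf).1 (fun k => Lval c Finset.univ L y k)
      (cut Finset.univ w), HM2_cut, map_mul, eval_C, HON_Lprod]
    ring

end Pool.Agent.SG
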